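import Pool.Agent.helper80.SV.Spec

set_option autoImplicit false

namespace Pool.Agent.SV

open MvPolynomial Module

theorem MON_rank {E F : Type} [AddCommGroup E] [Module ℂ E] [Module.Finite ℂ E] [AddCommGroup F]
    [Module ℂ F] (K : Submodule ℂ E) (φ : E →ₗ[ℂ] F) :
    finrank ℂ K = finrank ℂ (K ⊓ LinearMap.ker φ : Submodule ℂ E) +
      finrank ℂ (Submodule.map φ K) := by
  have h1 := LinearMap.finrank_range_add_finrank_ker (φ.domRestrict K)
  have h2 : LinearMap.range (φ.domRestrict K) = Submodule.map φ K := LinearMap.range_domRestrict K φ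
  have h3 : finrank ℂ (LinearMap.ker (φ.domRestrict K)) =
      finrank ℂ (K ⊓ LinearMap.ker φ : Submodule ℂ E) := by
    rw [LinearMap.ker_domRestrict]
    have h4 : Submodule.map K.subtype (Submodule.comap K.subtype (LinearMap.ker φ)) =
        K ⊓ LinearMap.ker φ := by
      rw [Submodule.map_comap_subtype]
    rw [← h4]
    exact (LinearEquiv.finrank_eq (Submodule.equivMapOfInjective K.subtype
      K.injective_subtype _))
  rw [h2, h3] at h1
  omega

theorem MON_ker {E P J : Type} [AddCommGroup E] [Module ℂ E] [AddCommGroup P] [Module ℂ P]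
    (Φ : Bool → P → E →ₗ[ℂ] (J → ℂ)) {a b b' : ℕ} (x : Fin a → P) (y : Fin b → P)
    (y' : Fin b' → P) (p : P)
    (h : ∀ q : P, (∃ i, y' i = q) ↔ (∃ i, y i = q) ∨ q = p) :
    Ker Φ x y' = Ker Φ x y ⊓ LinearMap.ker (Φ false p) := by
  ext v
  rw [Submodule.mem_inf, mem_Ker, mem_Ker, LinearMap.mem_ker, and_assoc]
  refine and_congr Iff.rfl ?_
  constructor
  · intro h1
    refine ⟨fun i => ?_, ?_⟩
    · obtain ⟨j, hj⟩ := (h (y i)).2 (Or.inl ⟨i, rfl⟩)
      rw [← hj]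
      exact h1 j
    · obtain ⟨j, hj⟩ := (h p).2 (Or.inr rfl)
      rw [← hj]
      exact h1 j
  · rintro ⟨h1, h2⟩ i
    rcases (h (y' i)).1 ⟨i, rfl⟩ with ⟨j, hj⟩ | hj
    · rw [← hj]
      exact h1 j
    · rw [hj]
      exact h2

theorem MON (hUG : UG_stmt) : MON_stmt := by
  intro E P J _ _ _ _ _ _ Φ hΦ a b
  obtain ⟨⟨⟨x, y⟩, hU⟩, -⟩ := hUG Φ hΦ (a + b + 2)
  change Uniform Φ (a + b + 2) x y at hU
  -- initial segments
  set s0 : Fin a ↪ Fin (a + b + 2) := Fin.castLEEmb (by omega) with hs0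
  set s1 : Fin (a + 1) ↪ Fin (a + b + 2) := Fin.castLEEmb (by omega) with hs1
  set t0 : Fin b ↪ Fin (a + b + 2) := Fin.castLEEmb (by omega) with ht0
  set t1 : Fin (b + 1) ↪ Fin (a + b + 2) := Fin.castLEEmb (by omega) with ht1
  set t2 : Fin (b + 2) ↪ Fin (a + b + 2) := Fin.castLEEmb (by omega) with ht2
  set o0 : Fin (a + b + 2) := ⟨b, by omega⟩ with ho0
  set o1 : Fin (a + b + 2) := ⟨b + 1, by omega⟩ with ho1
  set t1' : Fin (b + 1) ↪ Fin (a + b + 2) :=
    ⟨fun i => if i.val < b then ⟨i.val, by omega⟩ else o1, by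
      intro i j hij
      simp only at hij
      have hi := i.2
      have hj := j.2
      split_ifs at hij with h1 h2 h2
      · exact Fin.ext (by simpa using hij)
      · rw [ho1, Fin.mk.injEq] at hij
        omega
      · rw [ho1, Fin.mk.injEq] at hij
        omega
      · exact Fin.ext (by omega)⟩ with ht1'
  have hle1 : Ker Φ (x ∘ s1) (y ∘ t0) ≤ Ker Φ (x ∘ s0) (y ∘ t0) := by
    intro v hv
    rw [mem_Ker] at hv ⊢
    exact ⟨fun i => hv.1 i.castSucc, hv.2⟩
  have hk0 : ∀ {c : ℕ} (x' : Fin c → P), Ker Φ x' (y ∘ t1) =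
      Ker Φ x' (y ∘ t0) ⊓ LinearMap.ker (Φ false (y o0)) := by
    intro c x'
    refine MON_ker Φ x' (y ∘ t0) (y ∘ t1) (y o0) fun q => ?_
    constructor
    · rintro ⟨i, rfl⟩
      rcases Nat.lt_or_ge i.val b with h | h
      · exact Or.inl ⟨⟨i.val, h⟩, rfl⟩
      · right
        have : i.val = b := by omega
        change y _ = y _
        congr 1
        exact Fin.ext this
    · rintro (⟨i, rfl⟩ | rfl)
      · exact ⟨i.castSucc, rfl⟩
      · exact ⟨Fin.last b, rfl⟩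
  have hk1 : Ker Φ (x ∘ s0) (y ∘ t2) =
      Ker Φ (x ∘ s0) (y ∘ t1) ⊓ LinearMap.ker (Φ false (y o1)) := by
    refine MON_ker Φ _ (y ∘ t1) (y ∘ t2) (y o1) fun q => ?_
    constructor
    · rintro ⟨i, rfl⟩
      rcases Nat.lt_or_ge i.val (b + 1) with h | h
      · exact Or.inl ⟨⟨i.val, h⟩, rfl⟩
      · right
        have : i.val = b + 1 := by omega
        change y _ = y _
        congr 1
        exact Fin.ext this
    · rintro (⟨i, rfl⟩ | rfl)
      · exact ⟨i.castSucc, rfl⟩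
      · exact ⟨Fin.last (b + 1), rfl⟩
  have hk1' : Ker Φ (x ∘ s0) (y ∘ t1') =
      Ker Φ (x ∘ s0) (y ∘ t0) ⊓ LinearMap.ker (Φ false (y o1)) := by
    refine MON_ker Φ _ (y ∘ t0) (y ∘ t1') (y o1) fun q => ?_
    constructor
    · rintro ⟨i, rfl⟩
      rcases Nat.lt_or_ge i.val b with h | h
      · left
        refine ⟨⟨i.val, h⟩, ?_⟩
        change y _ = y (if i.val < b then _ else _)
        rw [if_pos h]
        rfl
      · right
        change y (if i.val < b then _ else _) = y _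
        rw [if_neg (by omega)]
    · rintro (⟨i, rfl⟩ | rfl)
      · refine ⟨i.castSucc, ?_⟩
        change y (if i.val < b then _ else _) = y _
        rw [if_pos i.2]
        rfl
      · refine ⟨Fin.last b, ?_⟩
        change y (if b < b then _ else _) = y _
        rw [if_neg (lt_irrefl b)]
  have d00 := hU a b s0 t0
  have d10 := hU (a + 1) b s1 t0
  have d01 := hU a (b + 1) s0 t1
  have d01' := hU a (b + 1) s0 t1'
  have d11 := hU (a + 1) (b + 1) s1 t1
  have d02 := hU a (b + 2) s0 t2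
  have r00 := MON_rank (Ker Φ (x ∘ s0) (y ∘ t0)) (Φ false (y o0))
  have r10 := MON_rank (Ker Φ (x ∘ s1) (y ∘ t0)) (Φ false (y o0))
  have r00' := MON_rank (Ker Φ (x ∘ s0) (y ∘ t0)) (Φ false (y o1))
  have r01 := MON_rank (Ker Φ (x ∘ s0) (y ∘ t1)) (Φ false (y o1))
  rw [← hk0] at r00 r10
  rw [← hk1'] at r00'
  rw [← hk1] at r01
  have hle2 : Ker Φ (x ∘ s0) (y ∘ t1) ≤ Ker Φ (x ∘ s0) (y ∘ t0) := by
    rw [hk0]
    exact inf_le_left
  have m1 : finrank ℂ (Submodule.map (Φ false (y o0)) (Ker Φ (x ∘ s1) (y ∘ t0))) ≤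
      finrank ℂ (Submodule.map (Φ false (y o0)) (Ker Φ (x ∘ s0) (y ∘ t0))) :=
    Submodule.finrank_mono (Submodule.map_mono hle1)
  have m2 : finrank ℂ (Submodule.map (Φ false (y o1)) (Ker Φ (x ∘ s0) (y ∘ t1))) ≤
      finrank ℂ (Submodule.map (Φ false (y o1)) (Ker Φ (x ∘ s0) (y ∘ t0))) :=
    Submodule.finrank_mono (Submodule.map_mono hle2)
  have m3 : finrank ℂ (Ker Φ (x ∘ s1) (y ∘ t0)) ≤ finrank ℂ (Ker Φ (x ∘ s0) (y ∘ t0)) :=
    Submodule.finrank_mono hle1
  have m4 : finrank ℂ (Ker Φ (x ∘ s0) (y ∘ t1)) ≤ finrank ℂ (Ker Φ (x ∘ s0) (y ∘ t0)) :=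
    Submodule.finrank_mono hle2
  have m5 : b + 1 + 1 = b + 2 := rfl
  unfold cc
  rw [m5]
  refine ⟨by omega, by omega, by omega, by omega⟩

end Pool.Agent.SV
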